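import Pool.Agent.N938.Bz.Right3

/-!
# Every benzel with nonnegative Conway-Lagarias invariant is tiled by right stones and bones

Proof. `a + b ≡ 1 mod 3`: a regular pattern of right stones. `a + b ≡ 2 mod 3`, `a ≥ b`: for
`a = 2 b - 1` right stones alone; if `a ≤ 2 b - 1`, `b ≤ 2 a - 1`, then `B(a + 3, b + 3)` is the
disjoint union of a translate of `B(a, b)`, a right stone and regions which consist of rows of three
cells. `a + b ≡ 0 mod 3`, `m = a - b ≥ 1`: three corners consist of rows whose lengths are divisible by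
three, and there remains `X(C, m)`, the set of the cells with `i, j, k ≤ C` and
`j - i, k - j, i - k ≤ 3 C - 2 m + 2`, where `m - 1 ≤ C ≤ m (m + 1) / 2 - 1`. For `C > 2 (m - 1)` we use
that `X(C, m)` is the disjoint union of `X(C - m, m - 1)` and of three rotated regions all of whose
rows have lengths divisible by three. For `C ≤ 2 (m - 1)` we use that `X(C, m)` is the disjoint union
of a translate of `X(C - 2, m - 1)`, of `m - 2` right stones and of regions whose rows (in the three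
directions) have lengths divisible by three; this ends with `X(p, p + 1)`, which is tiled by right
stones.
-/

set_option autoImplicit false

namespace Pool.Agent.Results.MP_59b97c_co.RightStonesAndBones

/-- The `(a, b)`-benzel as a set of cells: the cells with centres `(i, j, k)`, `i + j + k = 1`, with
`-(a - 1) ≤ j - i, k - j, i - k ≤ b - 1`. -/
def benzel (a b : ℤ) : Set (ℤ × ℤ × ℤ) :=
  {p | p.1 + p.2.1 + p.2.2 = 1 ∧ -(a - 1) ≤ p.2.1 - p.1 ∧ p.2.1 - p.1 ≤ b - 1 ∧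
    -(a - 1) ≤ p.2.2 - p.2.1 ∧ p.2.2 - p.2.1 ≤ b - 1 ∧
    -(a - 1) ≤ p.1 - p.2.2 ∧ p.1 - p.2.2 ≤ b - 1}

/-- The right stones: the translates of the cells `(1, 0, 0), (0, 1, 0), (0, 0, 1)`. -/
def IsRightStone (t : Set (ℤ × ℤ × ℤ)) : Prop :=
  ∃ q : ℤ × ℤ × ℤ, q.1 + q.2.1 + q.2.2 = 0 ∧
    t = {q + (1, 0, 0), q + (0, 1, 0), q + (0, 0, 1)}

/-- The bones: the cells `c - v, c, c + v` with `v = (1, -1, 0)`, `(0, 1, -1)` or `(-1, 0, 1)`. -/
def IsBone (t : Set (ℤ × ℤ × ℤ)) : Prop :=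
  ∃ c v : ℤ × ℤ × ℤ, c.1 + c.2.1 + c.2.2 = 1 ∧
    (v = (1, -1, 0) ∨ v = (0, 1, -1) ∨ v = (-1, 0, 1)) ∧ t = {c - v, c, c + v}

/-- The number `I(a, b)` of the question. (All three numerators are even.) -/
def invariant (a b : ℤ) : ℤ :=
  if (a + b) % 3 = 0 then (3 * a ^ 2 - 6 * a * b + 3 * b ^ 2 - a - b) / 2
  else if (a + b) % 3 = 1 then (-a ^ 2 + 4 * a * b - b ^ 2 - a - b + 2) / 2
  else (3 * a ^ 2 - 6 * a * b + 3 * b ^ 2 + a + b - 2) / 2

open Pool.Agent.N938.Bz

/-- For all integers `a, b` with `2 ≤ a ≤ 2 b`, `2 ≤ b ≤ 2 a` and `I(a, b) ≥ 0` the benzel `B(a, b)` is a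
disjoint union of right stones and bones. -/
theorem result : ∀ a b : ℤ, 2 ≤ a → a ≤ 2 * b → 2 ≤ b → b ≤ 2 * a → 0 ≤ invariant a b →
    ∃ P : Set (Set (ℤ × ℤ × ℤ)), (∀ t ∈ P, IsRightStone t ∨ IsBone t) ∧
      P.PairwiseDisjoint id ∧ ⋃₀ P = benzel a b := by
  intro a b ha hab hb hba hI
  obtain ⟨P, h1, h2, h3⟩ := tileable_Ben ha hab hb hba (by
    intro h0
    unfold invariant at hI
    rw [if_pos h0] at hI
    have e : 3 * (a - b) ^ 2 = 3 * a ^ 2 - 6 * a * b + 3 * b ^ 2 := by ring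
    omega)
  refine ⟨P, fun t ht => ?_, h2, h3⟩
  rcases h1 ht with ⟨i, j, k, hs, rfl⟩ | ⟨c, d, hc, hd, rfl⟩
  · left
    refine ⟨(i, j, k), hs, ?_⟩
    simp
  · right
    obtain ⟨c1, c2, c3⟩ := c
    obtain ⟨d1, d2, d3⟩ := d
    refine ⟨(c1, c2, c3) + (d1, d2, d3), (d1, d2, d3), ?_, by simpa [dirs] using hd, ?_⟩
    · simp only [dirs, Set.mem_insert_iff, Set.mem_singleton_iff, Prod.mk.injEq] at hd
      simp only [Prod.mk_add_mk] at hc ⊢
      omega
    · rw [bone]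
      simp

end Pool.Agent.Results.MP_59b97c_co.RightStonesAndBones
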